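import Pool.Agent.Helper54.SP.Stmts

/-!
Module `QS` of the `SPR_d` project: orders give exact values.
-/

namespace Pool.Agent.Helper54.SP

open Finset

/-- the gate with a given index -/
private def gs (Γ : List Gt) (s : ℕ) : Gt := Γ.getD s (false, 0, 0, 0, 0, 0)

private lemma qs_grp (s t : ℕ) (ht : t < 8) : grp (8 * s + 4 + t) = s + 1 := by
  unfold grp; omega

private lemma qs_crn (s t : ℕ) (ht : t < 8) : crn (8 * s + 4 + t) = t := by
  unfold crn; omega

private lemma qs_gat (Γ : List Gt) (s t : ℕ) (ht : t < 8) : gat Γ (8 * s + 4 + t) = gs Γ s := by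
  unfold gat gs; rw [qs_grp s t ht]; rfl

private lemma qs_dec (Γ : List Gt) (p : ℕ) (h4 : 4 ≤ p) (hp : p < NN Γ) :
    ∃ s t, s < Γ.length ∧ t < 8 ∧ p = 8 * s + 4 + t := by
  unfold NN at hp
  refine ⟨(p - 4) / 8, (p - 4) % 8, ?_, ?_, ?_⟩ <;> omega

private lemma qs_lt (Γ : List Gt) (s t : ℕ) (hs : s < Γ.length) (ht : t < 8) :
    8 * s + 4 + t < NN Γ := by
  unfold NN; omega

private lemma qs_mem (Γ : List Gt) (s : ℕ) (hs : s < Γ.length) : gs Γ s ∈ Γ := by
  unfold gs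
  rw [List.getD_eq_getElem _ _ hs]
  exact List.getElem_mem hs

private lemma qs_idx (Γ : List Gt) (g : Gt) (hg : g ∈ Γ) : ∃ s, s < Γ.length ∧ gs Γ s = g := by
  obtain ⟨s, hs, rfl⟩ := List.getElem_of_mem hg
  exact ⟨s, hs, by unfold gs; rw [List.getD_eq_getElem _ _ hs]⟩

private lemma qs_wir (Γ : List Gt) (s t : ℕ) (ht : t < 8) : wir Γ (8 * s + 4 + t) =
    if t / 2 = 0 then (gs Γ s).u else if t / 2 = 1 then (gs Γ s).u'
    else if t / 2 = 2 then (gs Γ s).a else (gs Γ s).a' := by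
  unfold wir; rw [qs_crn s t ht, qs_gat Γ s t ht]

private lemma qs_yk (Γ : List Gt) (s t : ℕ) (ht : t < 8) : yk Γ (8 * s + 4 + t) =
    2 + wir Γ (8 * s + 4 + t) * (2 * Γ.length) +
    (if t % 2 = 0 then Γ.length + (gs Γ s).c else Γ.length - 1 - (gs Γ s).c) := by
  unfold yk; rw [qs_crn s t ht, qs_gat Γ s t ht, if_neg (by omega)]

private lemma qs_xk (s t : ℕ) (ht : t < 8) : xk (8 * s + 4 + t) = 8 * (s + 1) - 6 + xr t := by
  unfold xk; rw [qs_crn s t ht, qs_grp s t ht, if_neg (by omega)]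

private lemma qs_hi (Γ : List Gt) (s t : ℕ) (ht : t < 8) : hi Γ (8 * s + 4 + t) =
    if 4 ≤ t then decide ((gs Γ s).u < (gs Γ s).a) else decide ((gs Γ s).a < (gs Γ s).u) := by
  unfold hi; rw [qs_crn s t ht, qs_gat Γ s t ht]

private lemma qs_sk (Γ : List Gt) (s t : ℕ) (ht : t < 8) : sk Γ (8 * s + 4 + t) =
    8 * s + (7 - (sr t + if hi Γ (8 * s + 4 + t) then 4 else 0)) := by
  unfold sk; rw [qs_crn s t ht, qs_grp s t ht]; rfl

private lemma qs_cen (b : Bool) : cen b ≤ 1 := by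
  unfold cen; split_ifs <;> norm_num

/-- the value of `v` at the wire `z` lies between the lower and the upper points -/
private def SWd (Γ : List Gt) (y v : ℕ → ℝ) (z : ℕ) : Prop :=
  ∀ p, 4 ≤ p → p < NN Γ → wir Γ p = z → (crn p % 2 = 0 → v z < y p) ∧ (crn p % 2 = 1 → y p < v z)

private lemma qs_y1 (Γ : List Gt) (x y : ℕ → ℝ) (O : Orders Γ x y) (s t : ℕ)
    (hs : s < Γ.length) (ht : t < 8) : 1 < y (8 * s + 4 + t) := by
  have h := O.yo 3 (8 * s + 4 + t) (by norm_num) (by omega) (by unfold NN; omega)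
    (qs_lt Γ s t hs ht) (by
      rw [qs_yk Γ s t ht]
      have : yk Γ 3 = 1 := by unfold yk; norm_num
      omega)
  rw [O.y3] at h
  exact h

private lemma qs_x1 (Γ : List Gt) (x y : ℕ → ℝ) (O : Orders Γ x y) (s t : ℕ)
    (hs : s < Γ.length) (ht : t < 8) : 1 < x (8 * s + 4 + t) := by
  have h := O.xo 3 (8 * s + 4 + t) (by norm_num) (by omega) (by unfold NN; omega)
    (qs_lt Γ s t hs ht) (by
      rw [qs_xk s t ht]
      have : xk 3 = 1 := by unfold xk; norm_num
      omega)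
  rw [O.x3] at h
  exact h

/-- order of abscissas inside a gate -/
private lemma qs_xx (Γ : List Gt) (x y : ℕ → ℝ) (O : Orders Γ x y) (s t t' : ℕ)
    (hs : s < Γ.length) (ht : t < 8) (ht' : t' < 8) (h : xr t < xr t') :
    x (8 * s + 4 + t) < x (8 * s + 4 + t') :=
  O.xo _ _ (by omega) (by omega) (qs_lt Γ s t hs ht) (qs_lt Γ s t' hs ht') (by
    rw [qs_xk s t ht, qs_xk s t' ht']; omega)

/-- order of slopes inside a gate -/
private lemma qs_ss (Γ : List Gt) (x y : ℕ → ℝ) (O : Orders Γ x y) (s t t' : ℕ)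
    (hs : s < Γ.length) (ht : t < 8) (ht' : t' < 8) (h : sr t' < sr t) (h4 : sr t < 4)
    (hh : (4 ≤ t ↔ 4 ≤ t')) :
    (y (8 * s + 4 + t') - cen (gs Γ s).k) * (x (8 * s + 4 + t) - cen (gs Γ s).k) <
      (y (8 * s + 4 + t) - cen (gs Γ s).k) * (x (8 * s + 4 + t') - cen (gs Γ s).k) := by
  refine O.so (gs Γ s).k (8 * s + 4 + t) (8 * s + 4 + t') ⟨by omega, by rw [qs_gat Γ s t ht]⟩
    ⟨by omega, by rw [qs_gat Γ s t' ht']⟩ (qs_lt Γ s t hs ht) (qs_lt Γ s t' hs ht') ?_
  rw [qs_sk Γ s t ht, qs_sk Γ s t' ht']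
  have e : hi Γ (8 * s + 4 + t') = hi Γ (8 * s + 4 + t) := by
    rw [qs_hi Γ s t ht, qs_hi Γ s t' ht']
    by_cases h4 : 4 ≤ t
    · rw [if_pos h4, if_pos (hh.1 h4)]
    · rw [if_neg h4, if_neg (fun h => h4 (hh.2 h))]
  rw [e]
  by_cases hb : hi Γ (8 * s + 4 + t) = true
  · rw [if_pos hb]; omega
  · rw [if_neg hb]; omega

/-- sandwiching at the points of a gate -/
private lemma qs_up (Γ : List Gt) (y v : ℕ → ℝ) (S : ∀ z, SWd Γ y v z) (s t : ℕ)
    (hs : s < Γ.length) (ht : t < 8) (h2 : t % 2 = 0) (z : ℕ) (hz : wir Γ (8 * s + 4 + t) = z) :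
    v z < y (8 * s + 4 + t) :=
  (S z _ (by omega) (qs_lt Γ s t hs ht) hz).1 (by rw [qs_crn s t ht]; exact h2)

private lemma qs_lo (Γ : List Gt) (y v : ℕ → ℝ) (S : ∀ z, SWd Γ y v z) (s t : ℕ)
    (hs : s < Γ.length) (ht : t < 8) (h2 : t % 2 = 1) (z : ℕ) (hz : wir Γ (8 * s + 4 + t) = z) :
    y (8 * s + 4 + t) < v z :=
  (S z _ (by omega) (qs_lt Γ s t hs ht) hz).2 (by rw [qs_crn s t ht]; exact h2)

private lemma qs_w0 (Γ : List Gt) (s : ℕ) : wir Γ (8 * s + 4 + 0) = (gs Γ s).u := by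
  rw [qs_wir Γ s 0 (by norm_num)]; rfl
private lemma qs_w1 (Γ : List Gt) (s : ℕ) : wir Γ (8 * s + 4 + 1) = (gs Γ s).u := by
  rw [qs_wir Γ s 1 (by norm_num)]; rfl
private lemma qs_w2 (Γ : List Gt) (s : ℕ) : wir Γ (8 * s + 4 + 2) = (gs Γ s).u' := by
  rw [qs_wir Γ s 2 (by norm_num)]; rfl
private lemma qs_w3 (Γ : List Gt) (s : ℕ) : wir Γ (8 * s + 4 + 3) = (gs Γ s).u' := by
  rw [qs_wir Γ s 3 (by norm_num)]; rfl
private lemma qs_w4 (Γ : List Gt) (s : ℕ) : wir Γ (8 * s + 4 + 4) = (gs Γ s).a := by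
  rw [qs_wir Γ s 4 (by norm_num)]; rfl
private lemma qs_w5 (Γ : List Gt) (s : ℕ) : wir Γ (8 * s + 4 + 5) = (gs Γ s).a := by
  rw [qs_wir Γ s 5 (by norm_num)]; rfl
private lemma qs_w6 (Γ : List Gt) (s : ℕ) : wir Γ (8 * s + 4 + 6) = (gs Γ s).a' := by
  rw [qs_wir Γ s 6 (by norm_num)]; rfl
private lemma qs_w7 (Γ : List Gt) (s : ℕ) : wir Γ (8 * s + 4 + 7) = (gs Γ s).a' := by
  rw [qs_wir Γ s 7 (by norm_num)]; rfl

/-- the new value lies between the points `D⁻` and `D⁺` -/
private lemma qs_val (h1 : ST_GIN) (h1' : ST_GIN') (Γ : List Gt) (x y v : ℕ → ℝ)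
    (O : Orders Γ x y) (S : ∀ z, SWd Γ y v z) (s : ℕ) (hs : s < Γ.length) :
    0 < v (gs Γ s).u - cen (gs Γ s).k ∧
    cen (gs Γ s).k + (v (gs Γ s).a - cen (gs Γ s).k) * (v (gs Γ s).u' - cen (gs Γ s).k) /
      (v (gs Γ s).u - cen (gs Γ s).k) < y (8 * s + 4 + 6) ∧
    y (8 * s + 4 + 7) < cen (gs Γ s).k + (v (gs Γ s).a - cen (gs Γ s).k) *
      (v (gs Γ s).u' - cen (gs Γ s).k) / (v (gs Γ s).u - cen (gs Γ s).k) := by
  set c := cen (gs Γ s).k with hc
  have hc1 : c ≤ 1 := qs_cen _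
  have X := fun t ht => qs_x1 Γ x y O s t hs ht
  have Y := fun t ht => qs_y1 Γ x y O s t hs ht
  have A0 := qs_up Γ y v S s 0 hs (by norm_num) rfl _ (qs_w0 Γ s)
  have A1 := qs_lo Γ y v S s 1 hs (by norm_num) rfl _ (qs_w1 Γ s)
  have B2 := qs_up Γ y v S s 2 hs (by norm_num) rfl _ (qs_w2 Γ s)
  have B3 := qs_lo Γ y v S s 3 hs (by norm_num) rfl _ (qs_w3 Γ s)
  have C4 := qs_up Γ y v S s 4 hs (by norm_num) rfl _ (qs_w4 Γ s)
  have C5 := qs_lo Γ y v S s 5 hs (by norm_num) rfl _ (qs_w5 Γ s)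
  have X0 := X 0 (by norm_num)
  have X1 := X 1 (by norm_num)
  have X2 := X 2 (by norm_num)
  have X3 := X 3 (by norm_num)
  have X4 := X 4 (by norm_num)
  have X5 := X 5 (by norm_num)
  have X6 := X 6 (by norm_num)
  have X7 := X 7 (by norm_num)
  have Y0 := Y 0 (by norm_num)
  have Y1 := Y 1 (by norm_num)
  have Y2 := Y 2 (by norm_num)
  have Y3 := Y 3 (by norm_num)
  have Y4 := Y 4 (by norm_num)
  have Y5 := Y 5 (by norm_num)
  have Y6 := Y 6 (by norm_num)
  have Y7 := Y 7 (by norm_num)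
  have hu : 0 < v (gs Γ s).u - c := by linarith
  have hu' : 0 < v (gs Γ s).u' - c := by linarith
  have ha : 0 < v (gs Γ s).a - c := by linarith
  have x41 := qs_xx Γ x y O s 4 1 hs (by norm_num) (by norm_num) (by decide)
  have x26 := qs_xx Γ x y O s 2 6 hs (by norm_num) (by norm_num) (by decide)
  have x05 := qs_xx Γ x y O s 0 5 hs (by norm_num) (by norm_num) (by decide)
  have x73 := qs_xx Γ x y O s 7 3 hs (by norm_num) (by norm_num) (by decide)
  have s12 := qs_ss Γ x y O s 1 2 hs (by norm_num) (by norm_num) (by decide) (by decide)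
    (by decide)
  have s64 := qs_ss Γ x y O s 6 4 hs (by norm_num) (by norm_num) (by decide) (by decide)
    (by decide)
  have s30 := qs_ss Γ x y O s 3 0 hs (by norm_num) (by norm_num) (by decide) (by decide)
    (by decide)
  have s57 := qs_ss Γ x y O s 5 7 hs (by norm_num) (by norm_num) (by decide) (by decide)
    (by decide)
  have G := h1 (x (8 * s + 4 + 1) - c) (y (8 * s + 4 + 1) - c) (x (8 * s + 4 + 2) - c)
    (y (8 * s + 4 + 2) - c) (x (8 * s + 4 + 4) - c) (y (8 * s + 4 + 4) - c)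
    (x (8 * s + 4 + 6) - c) (y (8 * s + 4 + 6) - c) (v (gs Γ s).u - c) (v (gs Γ s).u' - c)
    (v (gs Γ s).a - c) (by linarith) (by linarith) (by linarith) (by linarith) (by linarith)
    hu' ha (by linarith) (by linarith) (by linarith) (by linarith) (by linarith) s12 s64
  have G' := h1' (x (8 * s + 4 + 0) - c) (y (8 * s + 4 + 0) - c) (x (8 * s + 4 + 3) - c)
    (y (8 * s + 4 + 3) - c) (x (8 * s + 4 + 5) - c) (y (8 * s + 4 + 5) - c)
    (x (8 * s + 4 + 7) - c) (y (8 * s + 4 + 7) - c) (v (gs Γ s).u - c) (v (gs Γ s).u' - c)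
    (v (gs Γ s).a - c) (by linarith) (by linarith) (by linarith) (by linarith) (by linarith)
    (by linarith) hu (by linarith) (by linarith) (by linarith) (by linarith) (by linarith)
    (by linarith) s30 s57
  refine ⟨hu, ?_, ?_⟩
  · have : (v (gs Γ s).a - c) * (v (gs Γ s).u' - c) / (v (gs Γ s).u - c) <
      y (8 * s + 4 + 6) - c := by
      rw [div_lt_iff₀ hu]; exact G
    linarith
  · have : y (8 * s + 4 + 7) - c <
      (v (gs Γ s).a - c) * (v (gs Γ s).u' - c) / (v (gs Γ s).u - c) := by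
      rw [lt_div_iff₀ hu]; exact G'
    linarith

/-- a value between the lower and the upper points of a wire -/
private lemma qs_base (Γ : List Gt) (x y : ℕ → ℝ) (O : Orders Γ x y) :
    ∃ v : ℕ → ℝ, ∀ z, SWd Γ y v z := by
  classical
  have h : ∀ z, ∃ w : ℝ, ∀ p, 4 ≤ p → p < NN Γ → wir Γ p = z →
      (crn p % 2 = 0 → w < y p) ∧ (crn p % 2 = 1 → y p < w) := by
    intro z
    obtain ⟨m, hm1, hm2⟩ := Order.exists_between_finsets
      (((Finset.range (NN Γ)).filter fun p => 4 ≤ p ∧ wir Γ p = z ∧ crn p % 2 = 1).image y)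
      (((Finset.range (NN Γ)).filter fun p => 4 ≤ p ∧ wir Γ p = z ∧ crn p % 2 = 0).image y)
      (by
        intro a ha b hb
        rw [Finset.mem_image] at ha hb
        obtain ⟨p, hp, rfl⟩ := ha
        obtain ⟨q, hq, rfl⟩ := hb
        rw [Finset.mem_filter, Finset.mem_range] at hp hq
        obtain ⟨hpN, hp4, hpz, hp1⟩ := hp
        obtain ⟨hqN, hq4, hqz, hq1⟩ := hq
        refine O.yo p q (by omega) (by omega) hpN hqN ?_
        obtain ⟨s, t, hs, ht, rfl⟩ := qs_dec Γ p hp4 hpN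
        obtain ⟨s', t', hs', ht', rfl⟩ := qs_dec Γ q hq4 hqN
        rw [qs_crn s t ht] at hp1
        rw [qs_crn s' t' ht'] at hq1
        rw [qs_yk Γ s t ht, qs_yk Γ s' t' ht', hpz, hqz, if_neg (by omega), if_pos hq1]
        omega)
    refine ⟨m, ?_⟩
    intro p hp4 hpN hpz
    refine ⟨fun h0 => ?_, fun h1 => ?_⟩
    · apply hm2
      rw [Finset.mem_image]
      exact ⟨p, by rw [Finset.mem_filter, Finset.mem_range]; exact ⟨hpN, hp4, hpz, h0⟩, rfl⟩
    · apply hm1
      rw [Finset.mem_image]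
      exact ⟨p, by rw [Finset.mem_filter, Finset.mem_range]; exact ⟨hpN, hp4, hpz, h1⟩, rfl⟩
  choose v hv using h
  exact ⟨v, fun z p h4 hp hz => by
    have := hv z p h4 hp hz
    exact this⟩

/-- the inductive step at a gate -/
private lemma qs_step (h1 : ST_GIN) (h1' : ST_GIN') (Γ : List Gt) (nw : ℕ) (x y v : ℕ → ℝ)
    (W : WF Γ nw) (O : Orders Γ x y) (S : ∀ z, SWd Γ y v z) (s : ℕ) (hs : s < Γ.length) :
    ∃ v' : ℕ → ℝ, (∀ z, SWd Γ y v' z) ∧ (∀ z, z ≠ (gs Γ s).a' → v' z = v z) ∧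
      (v' (gs Γ s).a' - cen (gs Γ s).k) * (v' (gs Γ s).u - cen (gs Γ s).k) =
        (v' (gs Γ s).a - cen (gs Γ s).k) * (v' (gs Γ s).u' - cen (gs Γ s).k) := by
  obtain ⟨hu, hup, hlo⟩ := qs_val h1 h1' Γ x y v O S s hs
  set val := cen (gs Γ s).k + (v (gs Γ s).a - cen (gs Γ s).k) *
      (v (gs Γ s).u' - cen (gs Γ s).k) / (v (gs Γ s).u - cen (gs Γ s).k) with hval
  have hw := W.wires _ (qs_mem Γ s hs)
  refine ⟨Function.update v (gs Γ s).a' val, ?_, ?_, ?_⟩
  · intro z p hp4 hpN hpz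
    by_cases hz : z = (gs Γ s).a'
    · subst hz
      rw [Function.update_self]
      obtain ⟨r, t, hr, ht, rfl⟩ := qs_dec Γ p hp4 hpN
      rw [qs_crn r t ht]
      by_cases h6 : 6 ≤ t
      · have hrs : r = s := by
          refine W.out r s hr hs ?_
          have := qs_wir Γ r t ht
          rw [hpz, if_neg (by omega), if_neg (by omega), if_neg (by omega)] at this
          exact this.symm
        subst hrs
        refine ⟨fun h0 => ?_, fun h1 => ?_⟩
        · have : t = 6 := by omega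
          subst this; exact hup
        · have : t = 7 := by omega
          subst this; exact hlo
      · have hc : (gs Γ s).c < (gs Γ r).c := by
          refine W.topo _ (qs_mem Γ s hs) _ (qs_mem Γ r hr) ?_
          have := qs_wir Γ r t ht
          rw [hpz] at this
          by_cases t0 : t / 2 = 0
          · rw [if_pos t0] at this; exact Or.inl this
          · rw [if_neg t0] at this
            by_cases t1 : t / 2 = 1
            · rw [if_pos t1] at this; exact Or.inr (Or.inl this)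
            · rw [if_neg t1, if_pos (by omega)] at this; exact Or.inr (Or.inr this)
        have hcl := W.clt _ (qs_mem Γ r hr)
        refine ⟨fun h0 => ?_, fun h1 => ?_⟩
        · refine hup.trans (O.yo _ _ (by omega) (by omega) (qs_lt Γ s 6 hs (by norm_num)) hpN ?_)
          rw [qs_yk Γ s 6 (by norm_num), qs_yk Γ r t ht, hpz, qs_w6, if_pos rfl, if_pos h0]
          omega
        · refine (O.yo _ _ (by omega) (by omega) hpN (qs_lt Γ s 7 hs (by norm_num)) ?_).trans hlo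
          rw [qs_yk Γ s 7 (by norm_num), qs_yk Γ r t ht, hpz, qs_w7,
            if_neg (show ¬ 7 % 2 = 0 by norm_num), if_neg (show ¬ t % 2 = 0 by omega)]
          omega
    · rw [Function.update_of_ne hz]
      exact S z p hp4 hpN hpz
  · intro z hz
    exact Function.update_of_ne hz _ _
  · rw [Function.update_self, Function.update_of_ne hw.2.2.2.2.2.1,
      Function.update_of_ne (by omega), Function.update_of_ne hw.2.2.2.2.2.2.2, hval]
    field_simp
    ring

private lemma qs_ind (h1 : ST_GIN) (h1' : ST_GIN') (Γ : List Gt) (nw : ℕ) (x y : ℕ → ℝ)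
    (W : WF Γ nw) (O : Orders Γ x y) (n : ℕ) : ∃ v : ℕ → ℝ, (∀ z, SWd Γ y v z) ∧
      ∀ s, s < Γ.length → (gs Γ s).c < n →
        (v (gs Γ s).a' - cen (gs Γ s).k) * (v (gs Γ s).u - cen (gs Γ s).k) =
          (v (gs Γ s).a - cen (gs Γ s).k) * (v (gs Γ s).u' - cen (gs Γ s).k) := by
  induction n with
  | zero =>
    obtain ⟨v, hv⟩ := qs_base Γ x y O
    exact ⟨v, hv, fun s _ h => absurd h (by omega)⟩
  | succ n ih =>
    obtain ⟨v, hv, he⟩ := ih
    by_cases hex : ∃ s, s < Γ.length ∧ (gs Γ s).c = n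
    · obtain ⟨s, hs, hcs⟩ := hex
      obtain ⟨v', hv', hne, heq⟩ := qs_step h1 h1' Γ nw x y v W O hv s hs
      refine ⟨v', hv', ?_⟩
      intro r hr hcr
      by_cases hrn : (gs Γ r).c = n
      · have : r = s := W.cinj r s hr hs (by
          show (gs Γ r).c = (gs Γ s).c
          rw [hrn, hcs])
        subst this
        exact heq
      · have hlt : (gs Γ r).c < n := by omega
        have n1 : (gs Γ r).a' ≠ (gs Γ s).a' := by
          intro h
          have := W.out r s hr hs h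
          subst this
          omega
        have T := W.topo _ (qs_mem Γ s hs) _ (qs_mem Γ r hr)
        have n2 : (gs Γ r).u ≠ (gs Γ s).a' := by
          intro h
          have := T (Or.inl h.symm)
          omega
        have n3 : (gs Γ r).u' ≠ (gs Γ s).a' := by
          intro h
          have := T (Or.inr (Or.inl h.symm))
          omega
        have n4 : (gs Γ r).a ≠ (gs Γ s).a' := by
          intro h
          have := T (Or.inr (Or.inr h.symm))
          omega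
        rw [hne _ n1, hne _ n2, hne _ n3, hne _ n4]
        exact he r hr hlt
    · refine ⟨v, hv, ?_⟩
      intro r hr hcr
      have : (gs Γ r).c ≠ n := fun h => hex ⟨r, hr, h⟩
      exact he r hr (by omega)

/-- a used wire carries a lower and an upper point -/
private lemma qs_att (Γ : List Gt) (z : ℕ) (h : Att Γ z) : ∃ s t, s < Γ.length ∧ t < 4 ∧
    wir Γ (8 * s + 4 + 2 * t) = z ∧ wir Γ (8 * s + 4 + (2 * t + 1)) = z := by
  obtain ⟨g, hg, hz⟩ := h
  obtain ⟨s, hs, rfl⟩ := qs_idx Γ g hg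
  rcases hz with h | h | h | h
  · exact ⟨s, 0, hs, by norm_num, by rw [h]; exact qs_w0 Γ s, by rw [h]; exact qs_w1 Γ s⟩
  · exact ⟨s, 1, hs, by norm_num, by rw [h]; exact qs_w2 Γ s, by rw [h]; exact qs_w3 Γ s⟩
  · exact ⟨s, 2, hs, by norm_num, by rw [h]; exact qs_w4 Γ s, by rw [h]; exact qs_w5 Γ s⟩
  · exact ⟨s, 3, hs, by norm_num, by rw [h]; exact qs_w6 Γ s, by rw [h]; exact qs_w7 Γ s⟩

theorem st_QS (h1 : ST_GIN) (h1' : ST_GIN') : ST_QS := by
  intro Γ nw x y W O
  obtain ⟨v, hv, he⟩ := qs_ind h1 h1' Γ nw x y W O Γ.length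
  refine ⟨v, ?_, ?_, ?_⟩
  · intro g hg
    obtain ⟨s, hs, rfl⟩ := qs_idx Γ g hg
    exact he s hs (W.clt _ hg)
  · intro z hz
    obtain ⟨s, t, hs, ht, hz0, hz1⟩ := qs_att Γ z hz
    have h := qs_lo Γ y v hv s (2 * t + 1) hs (by omega) (by omega) z hz1
    have h' := qs_y1 Γ x y O s (2 * t + 1) hs (by omega)
    linarith
  · intro z z' hz hz' hzz
    obtain ⟨s, t, hs, ht, hz0, -⟩ := qs_att Γ z hz
    obtain ⟨s', t', hs', ht', -, hz1⟩ := qs_att Γ z' hz'
    have h := qs_up Γ y v hv s (2 * t) hs (by omega) (by omega) z hz0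
    have h' := qs_lo Γ y v hv s' (2 * t' + 1) hs' (by omega) (by omega) z' hz1
    have hc := W.clt _ (qs_mem Γ s hs)
    have h'' : y (8 * s + 4 + 2 * t) < y (8 * s' + 4 + (2 * t' + 1)) := by
      refine O.yo _ _ (by omega) (by omega) (qs_lt Γ s _ hs (by omega))
        (qs_lt Γ s' _ hs' (by omega)) ?_
      rw [qs_yk Γ s (2 * t) (by omega), qs_yk Γ s' (2 * t' + 1) (by omega), hz0, hz1,
        if_pos (by omega), if_neg (by omega)]
      have : (z + 1) * (2 * Γ.length) ≤ z' * (2 * Γ.length) := Nat.mul_le_mul_right _ hzz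
      have e : (z + 1) * (2 * Γ.length) = z * (2 * Γ.length) + 2 * Γ.length := by ring
      omega
    linarith

end Pool.Agent.Helper54.SP
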