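import Pool.Agent.Helper54.SP.Stmts

set_option autoImplicit false

namespace Pool.Agent.Helper54.SP

open Finset

/-- the abscissas -/
noncomputable def scX (κ ξ c : ℕ → ℝ) (p : ℕ) : ℝ :=
  if p = 2 then 0 else if p = 3 then 1 else κ (grp p) + c (grp p) * ξ p

/-- the conditions with largest group `s` -/
def scC (N : ℕ) (κ ξ y c : ℕ → ℝ) (s : ℕ) : Prop :=
  (∀ p ∈ range N, ∀ q ∈ range N, 2 ≤ p → grp q = s → grp p < s →
    0 < scX κ ξ c q - scX κ ξ c p) ∧
  (∀ p ∈ range N, ∀ q ∈ range N, ∀ r ∈ range N, 2 ≤ p → 2 ≤ q → p ≠ q → grp r = s → grp p < s →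
    grp q < s → 0 < -(y q - y p) * ((scX κ ξ c q - scX κ ξ c p) * (y r - y p) -
      (scX κ ξ c r - scX κ ξ c p) * (y q - y p))) ∧
  (∀ p ∈ range N, ∀ q ∈ range N, ∀ r ∈ range N, 2 ≤ p → q ≠ r → grp q = s → grp r = s →
    grp p < s → 0 < (ξ q * (y r - y p) - ξ r * (y q - y p)) *
      ((scX κ ξ c q - scX κ ξ c p) * (y r - y p) - (scX κ ξ c r - scX κ ξ c p) * (y q - y p)))

theorem sc_congr {N : ℕ} {κ ξ y c c' : ℕ → ℝ} {s : ℕ} (h : ∀ i ≤ s, c i = c' i)
    (hc : scC N κ ξ y c s) : scC N κ ξ y c' s := by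
  have hX : ∀ p, grp p ≤ s → scX κ ξ c' p = scX κ ξ c p := by
    intro p hp
    unfold scX
    rw [h _ hp]
  obtain ⟨h1, h2, h3⟩ := hc
  refine ⟨?_, ?_, ?_⟩
  · intro p hp q hq hp2 hqs hps
    rw [hX q hqs.le, hX p hps.le]
    exact h1 p hp q hq hp2 hqs hps
  · intro p hp q hq r hr hp2 hq2 hpq hrs hps hqs
    rw [hX q hqs.le, hX p hps.le, hX r hrs.le]
    exact h2 p hp q hq r hr hp2 hq2 hpq hrs hps hqs
  · intro p hp q hq r hr hp2 hqr hqs hrs hps
    rw [hX q hqs.le, hX p hps.le, hX r hrs.le]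
    exact h3 p hp q hq r hr hp2 hqr hqs hrs hps

theorem sc_lin (a b : ℝ) (hb : 0 < b) : ∀ᶠ C : ℝ in Filter.atTop, 0 < a + C * b := by
  filter_upwards [Filter.eventually_gt_atTop (-a / b)] with C hC
  have := (div_lt_iff₀ hb).1 hC
  linarith

theorem sc_grp {p s : ℕ} (hs : 1 ≤ s) (h : grp p = s) : 4 ≤ p := by
  unfold grp at h
  omega

theorem sc_ev {K : ℕ} {κ ξ y : ℕ → ℝ} (hξ : ∀ p, 4 ≤ p → p < 4 + 8 * K → 0 < ξ p)
    (hy : ∀ p q, 2 ≤ p → 2 ≤ q → p < 4 + 8 * K → q < 4 + 8 * K → p ≠ q → y p ≠ y q)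
    (hd : ∀ p q r, 2 ≤ p → grp p < grp q → grp q = grp r → q ≠ r → q < 4 + 8 * K →
      r < 4 + 8 * K → ξ q * (y r - y p) - ξ r * (y q - y p) ≠ 0) (c : ℕ → ℝ) (s : ℕ)
    (hs : 1 ≤ s) : ∀ᶠ C : ℝ in Filter.atTop,
      scC (4 + 8 * K) κ ξ y (Function.update c s C) s := by
  have hlo : ∀ p (C : ℝ), grp p < s → scX κ ξ (Function.update c s C) p = scX κ ξ c p := by
    intro p C hp
    unfold scX
    rw [Function.update_of_ne (by omega)]
  have hto : ∀ p (C : ℝ), grp p = s → scX κ ξ (Function.update c s C) p = κ s + C * ξ p := by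
    intro p C hp
    have h4 := sc_grp hs hp
    unfold scX
    rw [if_neg (by omega), if_neg (by omega), hp, Function.update_self]
  unfold scC
  rw [Filter.eventually_and, Filter.eventually_and]
  refine ⟨?_, ?_, ?_⟩
  · rw [Filter.eventually_all_finset]
    intro p hp
    rw [Filter.eventually_all_finset]
    intro q hq
    rw [Finset.mem_range] at hp hq
    by_cases h : 2 ≤ p ∧ grp q = s ∧ grp p < s
    · obtain ⟨h1, h2, h3⟩ := h
      filter_upwards [sc_lin (κ s - scX κ ξ c p) (ξ q) (hξ q (sc_grp hs h2) hq)] with C hC _ _ _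
      rw [hlo p C h3, hto q C h2]
      linarith
    · filter_upwards with C h1 h2 h3
      exact absurd ⟨h1, h2, h3⟩ h
  · rw [Filter.eventually_all_finset]
    intro p hp
    rw [Filter.eventually_all_finset]
    intro q hq
    rw [Filter.eventually_all_finset]
    intro r hr
    rw [Finset.mem_range] at hp hq hr
    by_cases h : 2 ≤ p ∧ 2 ≤ q ∧ p ≠ q ∧ grp r = s ∧ grp p < s ∧ grp q < s
    · obtain ⟨h1, h2, h3, h4, h5, h6⟩ := h
      have h7 : 0 < ξ r := hξ r (sc_grp hs h4) hr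
      have h8 : y q - y p ≠ 0 := sub_ne_zero.2 (hy p q h1 h2 hp hq h3).symm
      have h9 : 0 < ξ r * (y q - y p) ^ 2 := by positivity
      filter_upwards [sc_lin (-(y q - y p) * ((scX κ ξ c q - scX κ ξ c p) * (y r - y p) -
        (κ s - scX κ ξ c p) * (y q - y p))) _ h9] with C hC _ _ _ _ _ _
      rw [hlo p C h5, hlo q C h6, hto r C h4]
      refine lt_of_lt_of_eq hC ?_
      ring
    · filter_upwards with C h1 h2 h3 h4 h5 h6
      exact absurd ⟨h1, h2, h3, h4, h5, h6⟩ h
  · rw [Filter.eventually_all_finset]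
    intro p hp
    rw [Filter.eventually_all_finset]
    intro q hq
    rw [Filter.eventually_all_finset]
    intro r hr
    rw [Finset.mem_range] at hp hq hr
    by_cases h : 2 ≤ p ∧ q ≠ r ∧ grp q = s ∧ grp r = s ∧ grp p < s
    · obtain ⟨h1, h2, h3, h4, h5⟩ := h
      have h8 := hd p q r h1 (by omega) (by omega) h2 hq hr
      have h9 : 0 < (ξ q * (y r - y p) - ξ r * (y q - y p)) ^ 2 := by positivity
      filter_upwards [sc_lin ((ξ q * (y r - y p) - ξ r * (y q - y p)) *
        ((κ s - scX κ ξ c p) * (y r - y q))) _ h9] with C hC _ _ _ _ _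
      rw [hlo p C h5, hto q C h3, hto r C h4]
      refine lt_of_lt_of_eq hC ?_
      ring
    · filter_upwards with C h1 h2 h3 h4 h5
      exact absurd ⟨h1, h2, h3, h4, h5⟩ h

theorem st_SC : ST_SC := by
  intro K κ ξ y hξ hy hd
  have key : ∀ S : ℕ, ∃ c : ℕ → ℝ, (∀ s, 0 < c s) ∧
      ∀ s, 1 ≤ s → s ≤ S → scC (4 + 8 * K) κ ξ y c s := by
    intro S
    induction S with
    | zero => exact ⟨fun _ => 1, fun _ => one_pos, fun s h1 h2 => by omega⟩
    | succ S ih =>
      obtain ⟨c, hc, hcs⟩ := ih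
      obtain ⟨C, hC1, hC2⟩ := ((Filter.eventually_gt_atTop (0 : ℝ)).and
        (sc_ev hξ hy hd c (S + 1) (by omega))).exists
      refine ⟨Function.update c (S + 1) C, ?_, ?_⟩
      · intro s
        by_cases h : s = S + 1
        · subst h
          rw [Function.update_self]
          exact hC1
        · rw [Function.update_of_ne h]
          exact hc s
      · intro s h1 h2
        by_cases h : s = S + 1
        · subst h
          exact hC2
        · refine sc_congr ?_ (hcs s h1 (by omega))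
          intro i hi
          rw [Function.update_of_ne (by omega)]
  obtain ⟨c, hc, hcs⟩ := key K
  refine ⟨c, hc, ?_⟩
  intro x hx2 hx3 hx
  have hX : ∀ p, 2 ≤ p → p < 4 + 8 * K → x p = scX κ ξ c p := by
    intro p hp hpN
    unfold scX
    by_cases h2 : p = 2
    · rw [if_pos h2, h2, hx2]
    · by_cases h3 : p = 3
      · rw [if_neg h2, if_pos h3, h3, hx3]
      · rw [if_neg h2, if_neg h3]
        exact hx p (by omega) hpN
  have hgK : ∀ p, p < 4 + 8 * K → grp p ≤ K := by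
    intro p hp
    unfold grp
    omega
  have hlt : ∀ p q, grp p < grp q → q < 4 + 8 * K → p < 4 + 8 * K := by
    intro p q h hq
    unfold grp at h
    omega
  refine ⟨?_, ?_, ?_⟩
  · intro p q hp hq hqN hpq
    have hpN := hlt p q hpq hqN
    have h := (hcs (grp q) (by omega) (hgK q hqN)).1 p (mem_range.2 hpN) q (mem_range.2 hqN) hp
      rfl hpq
    rw [hX p hp hpN, hX q hq hqN]
    linarith
  · intro p q r hp hq hpq hpr hqr hrN
    have hpN := hlt p r hpr hrN
    have hqN := hlt q r hqr hrN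
    have hr2 : 2 ≤ r := by
      unfold grp at hpr
      omega
    have h := (hcs (grp r) (by omega) (hgK r hrN)).2.1 p (mem_range.2 hpN) q (mem_range.2 hqN)
      r (mem_range.2 hrN) hp hq hpq rfl hpr hqr
    rw [hX p hp hpN, hX q hq hqN, hX r hr2 hrN]
    exact h
  · intro p q r hp hpq hqr hne hqN hrN
    have hpN := hlt p q hpq hqN
    have hq2 : 2 ≤ q := by
      unfold grp at hpq
      omega
    have hr2 : 2 ≤ r := by
      unfold grp at hpq hqr
      omega
    have h := (hcs (grp q) (by omega) (hgK q hqN)).2.2 p (mem_range.2 hpN) q (mem_range.2 hqN)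
      r (mem_range.2 hrN) hp hne rfl hqr.symm hpq
    rw [hX p hp hpN, hX q hq2 hqN, hX r hr2 hrN]
    exact h

end Pool.Agent.Helper54.SP
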