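import Pool.Agent.Helper54.SP.StmtsW

set_option autoImplicit false

namespace Pool.Agent.Helper54.SP

open Finset

theorem ws_basic {b w c d : ℝ} (hb : 1 < b) (hc : 0 < c) (hbw : b < w) (hcd : c < d) :
    0 < (w - 1) / (b - 1) - 1 ∧ 0 < 1 - c / d ∧ 1 - c / d ≤ d / c - 1 := by
  have hd : 0 < d := lt_trans hc hcd
  refine ⟨?_, ?_, ?_⟩
  · have h1 : 1 < (w - 1) / (b - 1) := by
      rw [one_lt_div (by linarith)]
      linarith
    linarith
  · have h1 : c / d < 1 := by
      rw [div_lt_one hd]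
      exact hcd
    linarith
  · have h1 : d / c - 1 - (1 - c / d) = (d - c) ^ 2 / (c * d) := by
      field_simp
    have h2 : 0 ≤ (d - c) ^ 2 / (c * d) := by positivity
    linarith

theorem ws_lo (hWT : ST_WT) {β β' ω ω' ω'' b w c d W : ℝ} (h1 : 1 < β) (h2 : 1 < b) (h3 : 0 < c)
    (h4 : β < β') (h5 : ω < ω') (h6 : b < w) (h7 : c < d)
    (e1 : (ω - 1) * (b - 1) = (β - 1) * (w - 1)) (e2 : β' * c = β * d) (e3 : ω' * c = ω * d)
    (e4 : (ω'' - 1) * (β - 1) = (ω - 1) * (β' - 1)) (hω : 1 < ω) (hW : ω'' < W) :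
    ((w - 1) / (b - 1) - 1) / W * (1 - c / d) < 1 ∧
      1 / (1 - ((w - 1) / (b - 1) - 1) / W * (1 - c / d)) ≤ ω'' / ω' := by
  obtain ⟨g1, g2⟩ := hWT β β' ω ω' ω'' b w c d h1 h2 h3 h4 h5 h6 h7 e1 e2 e3 e4
  obtain ⟨k1, k2, k3⟩ := ws_basic h2 h3 h6 h7
  set n := (w - 1) / (b - 1) - 1 with hn
  set M := 1 - c / d with hM
  have hMn : M * n ≤ (d / c - 1) * n := mul_le_mul_of_nonneg_right k3 k1.le
  have hP : 0 < M * n := mul_pos k2 k1
  have hPW : M * n < W - ω := by linarith
  have hW0 : 0 < W := by linarith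
  have ha : n / W * M = M * n / W := by ring
  rw [ha, g2]
  have ha1 : M * n / W < 1 := by
    rw [div_lt_one hW0]
    linarith
  refine ⟨ha1, ?_⟩
  rw [div_le_iff₀ (by linarith)]
  have hω0 : 0 < ω := by linarith
  have e : (1 + M * n / ω) * (1 - M * n / W) - 1 = M * n * (W - ω - M * n) / (ω * W) := by
    field_simp
    ring
  have h8 : 0 ≤ M * n * (W - ω - M * n) / (ω * W) := by
    apply div_nonneg
    · apply mul_nonneg hP.le
      linarith
    · positivity
  linarith

theorem ws_hi (hWT : ST_WT) {β β' ω ω' ω'' b w c d W : ℝ} (h1 : 1 < β) (h2 : 1 < b) (h3 : 0 < c)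
    (h4 : β < β') (h5 : ω < ω') (h6 : b < w) (h7 : c < d)
    (e1 : (ω - 1) * (b - 1) = (β - 1) * (w - 1)) (e2 : β' * c = β * d) (e3 : ω' * c = ω * d)
    (e4 : (ω'' - 1) * (β - 1) = (ω - 1) * (β' - 1)) (hW0 : 0 < W) (hW : W ≤ ω) :
    ω'' / ω' ≤ 1 + ((w - 1) / (b - 1) - 1) / W * (1 - c / d) := by
  obtain ⟨g1, g2⟩ := hWT β β' ω ω' ω'' b w c d h1 h2 h3 h4 h5 h6 h7 e1 e2 e3 e4
  obtain ⟨k1, k2, k3⟩ := ws_basic h2 h3 h6 h7
  set n := (w - 1) / (b - 1) - 1 with hn
  set M := 1 - c / d with hM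
  have hP : 0 < M * n := mul_pos k2 k1
  have ha : n / W * M = M * n / W := by ring
  rw [ha, g2]
  have := div_le_div_of_nonneg_left hP.le hW0 hW
  linarith

theorem st_WS (hWM : ST_WMEM) (hWT : ST_WT) (hWP : ST_WP) : ST_WS := by
  classical
  intro K Q v hBV hSol
  obtain ⟨hE, h1, hord⟩ := hSol
  have hmem := (hWM K Q).2.2.2
  by_cases hQ : Q.length = 0
  · refine ⟨fun _ => 1, fun _ => 1, fun _ => one_pos, fun _ => one_pos, ?_⟩
    intro q hq
    rw [List.length_eq_zero_iff.1 hQ] at hq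
    simp at hq
  have hL : 0 < Q.length := Nat.pos_of_ne_zero hQ
  set L := Q.length with hLdef
  -- gates
  have mH : ∀ l i, l < L → i < 5 → gH K L (Q.getD l []) l i ∈ wiring K Q := fun l i hl hi =>
    (hmem _).2 ⟨l, hl, Or.inl ⟨i, hi, Or.inl rfl⟩⟩
  have m3 : ∀ l i, l < L → i < 5 → gG3 K L l i ∈ wiring K Q := fun l i hl hi =>
    (hmem _).2 ⟨l, hl, Or.inl ⟨i, hi, Or.inr (Or.inl rfl)⟩⟩
  have m1 : ∀ l i, l < L → i < 5 → gG1 K L (Q.getD l []) l i ∈ wiring K Q := fun l i hl hi =>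
    (hmem _).2 ⟨l, hl, Or.inl ⟨i, hi, Or.inr (Or.inr (Or.inl rfl))⟩⟩
  have m2 : ∀ l i, l < L → i < 5 → gG2 K L (Q.getD l []) l i ∈ wiring K Q := fun l i hl hi =>
    (hmem _).2 ⟨l, hl, Or.inl ⟨i, hi, Or.inr (Or.inr (Or.inr rfl))⟩⟩
  have mC : ∀ l i, l < L → i < 6 → gC K L l i ∈ wiring K Q := fun l i hl hi =>
    (hmem _).2 ⟨l, hl, Or.inr ⟨i, hi, rfl⟩⟩
  have aU : ∀ g ∈ wiring K Q, Att (wiring K Q) g.u := fun g hg => ⟨g, hg, Or.inl rfl⟩
  have aU' : ∀ g ∈ wiring K Q, Att (wiring K Q) g.u' := fun g hg => ⟨g, hg, Or.inr (Or.inl rfl)⟩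
  have aA : ∀ g ∈ wiring K Q, Att (wiring K Q) g.a :=
    fun g hg => ⟨g, hg, Or.inr (Or.inr (Or.inl rfl))⟩
  have aA' : ∀ g ∈ wiring K Q, Att (wiring K Q) g.a' :=
    fun g hg => ⟨g, hg, Or.inr (Or.inr (Or.inr rfl))⟩
  have c1 : cen true = 1 := if_pos rfl
  have c0 : cen false = 0 := if_neg (by decide)
  set W := v (4 * K + 15 * L) with hWdef
  have attW : Att (wiring K Q) (4 * K + 15 * L) := by
    have := aA _ (mH 0 3 hL (by norm_num))
    have e : (gH K L (Q.getD 0 []) 0 3).a = 4 * K + 15 * L := by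
      show tbs K L 0 3 = _
      unfold tbs
      rw [if_neg (by norm_num)]
      omega
    rwa [e] at this
  have hW1 : 1 < W := h1 _ attW
  -- the variables
  set x : ℕ → ℝ := fun k => if 0 < ((v (2 * k + 1) - 1) / (v (2 * k) - 1) - 1) / W then
    ((v (2 * k + 1) - 1) / (v (2 * k) - 1) - 1) / W else 1 with hx
  set y : ℕ → ℝ := fun j => if 0 < 1 - v (2 * K + 2 * j) / v (2 * K + 2 * j + 1) then
    1 - v (2 * K + 2 * j) / v (2 * K + 2 * j + 1) else 1 with hy
  have term : ∀ l i, l < L → i < 5 →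
      (0 < pp x y (Q.getD l []) i) ∧ (0 < v (tbs K L l i + 3)) ∧ (0 < v (tbs K L l i + 4)) ∧
      (i < 3 → pp x y (Q.getD l []) i < 1 ∧
        1 / (1 - pp x y (Q.getD l []) i) ≤ v (tbs K L l i + 4) / v (tbs K L l i + 3)) ∧
      (3 ≤ i → v (tbs K L l i + 4) / v (tbs K L l i + 3) ≤ 1 + pp x y (Q.getD l []) i) := by
    intro l i hl hi
    set q := Q.getD l [] with hq
    set t := tbs K L l i with ht
    have t0 : Att (wiring K Q) t := aA _ (mH l i hl hi)
    have t1 : Att (wiring K Q) (t + 1) := aA' _ (m1 l i hl hi)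
    have t2 : Att (wiring K Q) (t + 2) := aA' _ (mH l i hl hi)
    have t3 : Att (wiring K Q) (t + 3) := aA' _ (m2 l i hl hi)
    have t4 : Att (wiring K Q) (t + 4) := aA' _ (m3 l i hl hi)
    have u0 : Att (wiring K Q) (2 * ks q i) := aU _ (mH l i hl hi)
    have u1 : Att (wiring K Q) (2 * ks q i + 1) := aU' _ (mH l i hl hi)
    have w0 : Att (wiring K Q) (2 * K + 2 * js q i) := aU _ (m1 l i hl hi)
    have w1 : Att (wiring K Q) (2 * K + 2 * js q i + 1) := aU' _ (m1 l i hl hi)
    have e1 : (v (t + 2) - 1) * (v (2 * ks q i) - 1) = (v t - 1) * (v (2 * ks q i + 1) - 1) := by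
      have := hE _ (mH l i hl hi)
      rw [show (gH K L (Q.getD l []) l i).k = true from rfl, c1] at this
      exact this
    have e4 : (v (t + 4) - 1) * (v t - 1) = (v (t + 2) - 1) * (v (t + 1) - 1) := by
      have := hE _ (m3 l i hl hi)
      rw [show (gG3 K L l i).k = true from rfl, c1] at this
      exact this
    have e2 : v (t + 1) * v (2 * K + 2 * js q i) = v t * v (2 * K + 2 * js q i + 1) := by
      have := hE _ (m1 l i hl hi)
      rw [show (gG1 K L (Q.getD l []) l i).k = false from rfl, c0] at this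
      simp only [sub_zero] at this
      exact this
    have e3 : v (t + 3) * v (2 * K + 2 * js q i) = v (t + 2) * v (2 * K + 2 * js q i + 1) := by
      have := hE _ (m2 l i hl hi)
      rw [show (gG2 K L (Q.getD l []) l i).k = false from rfl, c0] at this
      simp only [sub_zero] at this
      exact this
    have p0 := h1 _ t0
    have p2 := h1 _ t2
    have p3 := h1 _ t3
    have p4 := h1 _ t4
    have pu := h1 _ u0
    have pw := h1 _ w0
    have o1 := hord _ _ t0 t1 (by omega)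
    have o2 := hord _ _ t2 t3 (by omega)
    have o3 := hord _ _ u0 u1 (by omega)
    have o4 := hord _ _ w0 w1 (by omega)
    obtain ⟨k1, k2, _⟩ := ws_basic pu (by linarith : 0 < v (2 * K + 2 * js q i)) o3 o4
    have hxq : x (ks q i) = ((v (2 * ks q i + 1) - 1) / (v (2 * ks q i) - 1) - 1) / W :=
      if_pos (div_pos k1 (by linarith))
    have hyq : y (js q i) = 1 - v (2 * K + 2 * js q i) / v (2 * K + 2 * js q i + 1) :=
      if_pos k2
    have hpp : pp x y q i = ((v (2 * ks q i + 1) - 1) / (v (2 * ks q i) - 1) - 1) / W *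
        (1 - v (2 * K + 2 * js q i) / v (2 * K + 2 * js q i + 1)) := by
      unfold pp
      rw [hxq, hyq]
    refine ⟨?_, by linarith, by linarith, ?_, ?_⟩
    · rw [hpp]
      exact mul_pos (div_pos k1 (by linarith)) k2
    · intro hi3
      rw [hpp]
      refine ws_lo hWT p0 pu (by linarith) o1 o2 o3 o4 e1 e2 e3 e4 p2 ?_
      refine hord _ _ t4 attW ?_
      rw [ht]
      unfold tbs
      rw [if_pos hi3]
      omega
    · intro hi3
      rw [hpp]
      refine ws_hi hWT p0 pu (by linarith) o1 o2 o3 o4 e1 e2 e3 e4 (by linarith) ?_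
      refine (hord _ _ attW t2 ?_).le
      rw [ht]
      unfold tbs
      rw [if_neg (by omega)]
      omega
  refine ⟨x, y, ?_, ?_, ?_⟩
  · intro i
    simp only [hx]
    split_ifs with h
    · exact h
    · exact one_pos
  · intro i
    simp only [hy]
    split_ifs with h
    · exact h
    · exact one_pos
  · intro q hqQ
    obtain ⟨l, hl, hlq⟩ := List.getElem_of_mem hqQ
    have hq : Q.getD l [] = q := by
      rw [List.getD_eq_getElem _ _ hl, hlq]
    obtain ⟨a0, b0, d0, f0, _⟩ := term l 0 hl (by norm_num)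
    obtain ⟨a1, b1, d1, f1, _⟩ := term l 1 hl (by norm_num)
    obtain ⟨a2, b2, d2, f2, _⟩ := term l 2 hl (by norm_num)
    obtain ⟨a3, b3, d3, _, f3⟩ := term l 3 hl (by norm_num)
    obtain ⟨a4, b4, d4, _, f4⟩ := term l 4 hl (by norm_num)
    rw [hq] at a0 a1 a2 a3 a4 f0 f1 f2 f3 f4
    have g0 := f0 (by norm_num)
    have g1 := f1 (by norm_num)
    have g2 := f2 (by norm_num)
    have g3 := f3 (by norm_num)
    have g4 := f4 (by norm_num)
    refine hWP _ _ _ _ _ _ _ _ _ _ a0 g0.1 a1 g1.1 a2 g2.1 a3 a4 g0.2 g1.2 g2.2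
      (div_pos d3 b3) (div_pos d4 b4) g3 g4 ?_
    -- the sum gates
    have q0 := mC l 0 hl (by norm_num)
    have q1 := mC l 1 hl (by norm_num)
    have q2 := mC l 2 hl (by norm_num)
    have q3 := mC l 3 hl (by norm_num)
    have q4 := mC l 4 hl (by norm_num)
    have q5 := mC l 5 hl (by norm_num)
    rw [gC, if_pos (by norm_num)] at q0 q1 q2
    rw [gC, if_neg (by norm_num), if_pos (by norm_num)] at q3 q4
    rw [gC, if_neg (by norm_num), if_neg (by norm_num)] at q5
    set P := pbs K L l with hP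
    have E0 : v (P + 1) * v (tbs K L l 0 + 3) = v P * v (tbs K L l 0 + 4) := by
      have := hE _ q0
      rw [show Gt.k _ = false from rfl, c0] at this
      simp only [sub_zero] at this
      exact this
    have E1 : v (P + 2) * v (tbs K L l 1 + 3) = v (P + 1) * v (tbs K L l 1 + 4) := by
      have := hE _ q1
      rw [show Gt.k _ = false from rfl, c0] at this
      simp only [sub_zero] at this
      exact this
    have E2 : v (P + 3) * v (tbs K L l 2 + 3) = v (P + 2) * v (tbs K L l 2 + 4) := by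
      have := hE _ q2
      rw [show Gt.k _ = false from rfl, c0] at this
      simp only [sub_zero] at this
      exact this
    have E3 : v (P + 6) * v (tbs K L l 3 + 3) = v (P + 5) * v (tbs K L l 3 + 4) := by
      have := hE _ q3
      rw [show Gt.k _ = false from rfl, c0] at this
      simp only [sub_zero] at this
      exact this
    have E4 : v (P + 7) * v (tbs K L l 4 + 3) = v (P + 6) * v (tbs K L l 4 + 4) := by
      have := hE _ q4
      rw [show Gt.k _ = false from rfl, c0] at this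
      simp only [sub_zero] at this
      exact this
    have E5 : v (P + 4) * v (P + 5) = v P * v (P + 7) := by
      have := hE _ q5
      rw [show Gt.k _ = false from rfl, c0] at this
      simp only [sub_zero] at this
      exact this
    have w0 : Att (wiring K Q) P := aA _ q5
    have w3 : Att (wiring K Q) (P + 3) := aA' _ q2
    have w4 : Att (wiring K Q) (P + 4) := aA' _ q5
    have w5 : Att (wiring K Q) (P + 5) := aU _ q5
    have v0 := h1 _ w0
    have v5 := h1 _ w5
    have hlt := hord _ _ w3 w4 (by omega)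
    have r0 : v (P + 1) = v P * (v (tbs K L l 0 + 4) / v (tbs K L l 0 + 3)) := by
      rw [mul_div_assoc', eq_div_iff b0.ne', E0]
    have r1 : v (P + 2) = v (P + 1) * (v (tbs K L l 1 + 4) / v (tbs K L l 1 + 3)) := by
      rw [mul_div_assoc', eq_div_iff b1.ne', E1]
    have r2 : v (P + 3) = v (P + 2) * (v (tbs K L l 2 + 4) / v (tbs K L l 2 + 3)) := by
      rw [mul_div_assoc', eq_div_iff b2.ne', E2]
    have r3 : v (P + 6) = v (P + 5) * (v (tbs K L l 3 + 4) / v (tbs K L l 3 + 3)) := by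
      rw [mul_div_assoc', eq_div_iff b3.ne', E3]
    have r4 : v (P + 7) = v (P + 6) * (v (tbs K L l 4 + 4) / v (tbs K L l 4 + 3)) := by
      rw [mul_div_assoc', eq_div_iff b4.ne', E4]
    set s0 := v (tbs K L l 0 + 4) / v (tbs K L l 0 + 3)
    set s1 := v (tbs K L l 1 + 4) / v (tbs K L l 1 + 3)
    set s2 := v (tbs K L l 2 + 4) / v (tbs K L l 2 + 3)
    set s3 := v (tbs K L l 3 + 4) / v (tbs K L l 3 + 3)
    set s4 := v (tbs K L l 4 + 4) / v (tbs K L l 4 + 3)
    have r5 : v (P + 4) = v P * (s3 * s4) := by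
      have h5 : v (P + 5) ≠ 0 := by linarith
      apply mul_right_cancel₀ h5
      rw [E5, r4, r3]
      ring
    have r6 : v (P + 3) = v P * (s0 * s1 * s2) := by
      rw [r2, r1, r0]
      ring
    rw [r5, r6] at hlt
    exact lt_of_mul_lt_mul_left hlt (by linarith)

end Pool.Agent.Helper54.SP
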